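import Mathlib
import Pool.Agent.Q209.Prod.Het
import Pool.Agent.Q209.Prod.Pmf

open MeasureTheory ProbabilityTheory Filter Topology

namespace Pool.Agent.Results.MP_c15531_pr.UncountableFixedPoints

noncomputable section

/-! ### Branching random walks -/

section defs

variable {X : Type}

instance : MeasurableSpace (X →₀ ℕ) := ⊤

instance : DiscreteMeasurableSpace (X →₀ ℕ) := ⟨fun _ => trivial⟩

/-- Particles are indexed by words: `(y, j) :: w` is the `j`-th child of `w` at the site `y`.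
`loc x w` is the position of the particle `w` (the initial particle `[]` sits at `x`). -/
def loc (x : X) : List (X × ℕ) → X
  | [] => x
  | a :: _ => a.1

/-- randomness: every (potential) particle `w` draws the vector `ω w` of its numbers of children -/
abbrev Om (X : Type) : Type := List (X × ℕ) → (X →₀ ℕ)

/-- law of the randomness for the branching random walk `μ` started with one particle at `x` -/
def law (μ : X → PMF (X →₀ ℕ)) (x : X) : Measure (Om X) :=
  Measure.infinitePi fun w : List (X × ℕ) => (μ (loc x w)).toMeasure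

/-- the particle `w` exists -/
def alive (ω : Om X) : List (X × ℕ) → Prop
  | [] => True
  | a :: w => alive ω w ∧ a.2 < ω w a.1

/-- `𝐪(x, A)`: probability that from some time on no particle is alive in `A` -/
def q (μ : X → PMF (X →₀ ℕ)) (A : Set X) (x : X) : ENNReal :=
  law μ x {ω | ∀ᶠ n in atTop, ¬ ∃ w : List (X × ℕ), w.length = n ∧ alive ω w ∧ loc x w ∈ A}

/-- the generating function `G` -/
def G (μ : X → PMF (X →₀ ℕ)) (z : X → ENNReal) (x : X) : ENNReal :=
  ∑' f : X →₀ ℕ, (f.prod fun y n => z y ^ n) * μ x f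

/-- fixed points of `G` in `[0,1]^X` -/
def FG (μ : X → PMF (X →₀ ℕ)) : Set (X → ENNReal) := {z | (∀ x, z x ≤ 1) ∧ G μ z = z}

/-- the set of extinction probability vectors -/
def EG (μ : X → PMF (X →₀ ℕ)) : Set (X → ENNReal) := {z | ∃ A : Set X, z = q μ A}

/-- mean number of children of a particle at `x` which are placed at `y` -/
def m (μ : X → PMF (X →₀ ℕ)) (x y : X) : ENNReal := ∑' f : X →₀ ℕ, (f y : ENNReal) * μ x f

/-- irreducibility -/
def Irreducible (μ : X → PMF (X →₀ ℕ)) : Prop :=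
  ∀ x y, Relation.ReflTransGen (fun a b => 0 < m μ a b) x y

/-- automorphisms of the branching random walk -/
def IsAut (μ : X → PMF (X →₀ ℕ)) (γ : X ≃ X) : Prop :=
  ∀ x f, μ (γ x) (f.mapDomain γ) = μ x f

/-- quasi-transitivity: the automorphisms have finitely many orbits -/
def QuasiTransitive (μ : X → PMF (X →₀ ℕ)) : Prop :=
  ∃ S : Finset X, ∀ x, ∃ γ : X ≃ X, IsAut μ γ ∧ γ x ∈ S

end defs

/-! ### First moment estimates -/

section general

variable {X : Type} [Countable X]

instance (μ : X → PMF (X →₀ ℕ)) (x : X) : IsProbabilityMeasure (law μ x) := by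
  unfold law; infer_instance

/-- words of length `n` -/
def W (X : Type) : ℕ → Type
  | 0 => Unit
  | n + 1 => (X × ℕ) × W X n

instance countableW : ∀ n, Countable (W X n)
  | 0 => inferInstanceAs (Countable Unit)
  | n + 1 => by
    have := countableW n
    exact inferInstanceAs (Countable ((X × ℕ) × W X n))

/-- the underlying list -/
def toL : ∀ n, W X n → List (X × ℕ)
  | 0, _ => []
  | n + 1, a => a.1 :: toL n a.2

omit [Countable X] in
theorem exists_toL (w : List (X × ℕ)) : ∃ a : W X w.length, toL _ a = w := by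
  induction w with
  | nil => exact ⟨(), rfl⟩
  | cons i w ih =>
    obtain ⟨a, ha⟩ := ih
    exact ⟨(i, a), by simp [toL, ha]⟩

open Classical in
/-- the ancestors of a word -/
def anc : List (X × ℕ) → Finset (List (X × ℕ))
  | [] => ∅
  | _ :: w => insert w (anc w)

omit [Countable X] in
theorem anc_len (w : List (X × ℕ)) : ∀ u ∈ anc w, u.length < w.length := by
  induction w with
  | nil => simp [anc]
  | cons i w ih =>
    intro u hu
    simp only [anc, Finset.mem_insert] at hu
    rcases hu with rfl | hu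
    · simp
    · have := ih u hu; simp; omega

omit [Countable X] in
theorem alive_congr {K K' : Om X} (w : List (X × ℕ)) (h : ∀ u ∈ anc w, K u = K' u) :
    alive K w ↔ alive K' w := by
  induction w with
  | nil => simp [alive]
  | cons i w ih =>
    simp only [alive]
    rw [ih fun u hu => h u (by simp [anc, hu]), h w (by simp [anc])]

omit [Countable X] in
theorem coord_meas (w : List (X × ℕ)) (S : Set (X →₀ ℕ)) : MeasurableSet {ω : Om X | ω w ∈ S} :=
  measurable_pi_apply (X := fun _ : List (X × ℕ) => (X →₀ ℕ)) w (MeasurableSet.of_discrete (s := S))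

omit [Countable X] in
theorem alive_meas (w : List (X × ℕ)) : MeasurableSet {ω : Om X | alive ω w} := by
  induction w with
  | nil => simp [alive]
  | cons i w ih =>
    have h : {ω : Om X | alive ω (i :: w)} = {ω | alive ω w} ∩ {ω | ω w ∈ {f | i.2 < f i.1}} := rfl
    rw [h]
    exact ih.inter (coord_meas w _)

omit [Countable X] in
theorem alive_cons (μ : X → PMF (X →₀ ℕ)) (x : X) (i : X × ℕ) (w : List (X × ℕ)) :
    law μ x {ω | alive ω (i :: w)} =
      law μ x {ω | alive ω w} * (μ (loc x w)).toMeasure {f | i.2 < f i.1} := by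
  have h : {ω : Om X | alive ω (i :: w)} = {ω | alive ω w} ∩ {ω | ω w ∈ {f | i.2 < f i.1}} := rfl
  unfold law
  rw [h, Q209.Prod.inter_of_dep_het _ (anc w) {w} ?_ (alive_meas w) (coord_meas w _) ?_ ?_]
  · congr 1
    have h2 := (measurePreserving_eval_infinitePi
      (fun w : List (X × ℕ) => (μ (loc x w)).toMeasure) w)
    exact h2.measure_preimage (MeasurableSet.of_discrete).nullMeasurableSet
  · rw [Finset.disjoint_singleton_right]
    intro hw
    exact lt_irrefl _ (anc_len w w hw)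
  · intro K K' hK
    exact alive_congr w hK
  · intro K K' hK
    simp only [Set.mem_ofPred_eq]
    rw [hK w (Finset.mem_singleton_self w)]

omit [Countable X] in
theorem tail_sum (p : PMF (X →₀ ℕ)) (y : X) :
    ∑' j : ℕ, p.toMeasure {f | j < f y} = ∑' f : X →₀ ℕ, (f y : ENNReal) * p f := by
  have h1 : ∀ j : ℕ, p.toMeasure {f | j < f y} = ∑' f : X →₀ ℕ, if j < f y then p f else 0 := by
    intro j
    rw [PMF.toMeasure_apply _ MeasurableSet.of_discrete]
    refine tsum_congr fun k => ?_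
    simp [Set.indicator]
  simp only [h1]
  rw [ENNReal.tsum_comm]
  refine tsum_congr fun f => ?_
  rw [tsum_eq_sum (s := Finset.range (f y)) (by
    intro i hi
    rw [Finset.mem_range] at hi
    rw [if_neg hi])]
  rw [Finset.sum_congr rfl (fun i hi => if_pos (Finset.mem_range.1 hi))]
  simp

omit [Countable X] in
/-- expected value of `∑ h(position)` over the particles of generation `n` -/
theorem moment (μ : X → PMF (X →₀ ℕ)) (h : X → ENNReal) (lam : ENNReal)
    (hm : ∀ x, ∑' y, m μ x y * h y = lam * h x) (x : X) (n : ℕ) :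
    ∑' a : W X n, law μ x {ω | alive ω (toL n a)} * h (loc x (toL n a)) = lam ^ n * h x := by
  induction n with
  | zero =>
    rw [pow_zero, one_mul]
    have : ∀ a : W X 0, law μ x {ω | alive ω (toL 0 a)} * h (loc x (toL 0 a)) = h x := by
      intro a
      simp [toL, alive, loc]
    simp only [this]
    change ∑' _ : Unit, h x = h x
    simp
  | succ n ih =>
    have h1 : ∀ a : W X (n + 1), law μ x {ω | alive ω (toL (n + 1) a)} *
        h (loc x (toL (n + 1) a)) = law μ x {ω | alive ω (toL n a.2)} *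
        ((μ (loc x (toL n a.2))).toMeasure {f | a.1.2 < f a.1.1} * h a.1.1) := by
      intro a
      rw [← mul_assoc, ← alive_cons]
      rfl
    simp only [h1]
    change ∑' a : (X × ℕ) × W X n, _ = _
    rw [ENNReal.tsum_prod (f := fun (i : X × ℕ) (a : W X n) =>
      law μ x {ω | alive ω (toL n a)} *
        ((μ (loc x (toL n a))).toMeasure {f | i.2 < f i.1} * h i.1))]
    rw [ENNReal.tsum_comm]
    have h2 : ∀ a : W X n, ∑' i : X × ℕ, law μ x {ω | alive ω (toL n a)} *
        ((μ (loc x (toL n a))).toMeasure {f | i.2 < f i.1} * h i.1) =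
        lam * (law μ x {ω | alive ω (toL n a)} * h (loc x (toL n a))) := by
      intro a
      rw [ENNReal.tsum_mul_left, ENNReal.tsum_prod (f := fun (y : X) (j : ℕ) =>
        (μ (loc x (toL n a))).toMeasure {f | j < f y} * h y)]
      simp only [ENNReal.tsum_mul_right, tail_sum]
      have := hm (loc x (toL n a))
      unfold m at this
      rw [this]
      ring
    simp only [h2]
    rw [ENNReal.tsum_mul_left, ih, pow_succ]
    ring

/-- sufficient condition for extinction in `A` -/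
theorem q_one (μ : X → PMF (X →₀ ℕ)) (h : X → ENNReal) (lam : ENNReal)
    (hm : ∀ x, ∑' y, m μ x y * h y = lam * h x) (hlam : lam < 1) (x : X) (hx : h x ≠ ⊤)
    (A : Set X) (c : ENNReal) (hc : c ≠ 0) (hctop : c ≠ ⊤) (hA : ∀ y ∈ A, c ≤ h y) :
    q μ A x = 1 := by
  have key : law μ x {ω | ∃ᶠ n in atTop, ∃ w : List (X × ℕ), w.length = n ∧ alive ω w ∧
      loc x w ∈ A} = 0 := by
    apply measure_setOfPred_frequently_eq_zero
    have hlen : ∀ (n : ℕ) (a : W X n), (toL n a).length = n := by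
      intro n
      induction n with
      | zero => intro a; rfl
      | succ n ih => intro a; simp [toL, ih]
    have hn : ∀ n, law μ x {ω | ∃ w : List (X × ℕ), w.length = n ∧ alive ω w ∧ loc x w ∈ A} ≤
        c⁻¹ * h x * lam ^ n := by
      intro n
      have hsub : {ω : Om X | ∃ w : List (X × ℕ), w.length = n ∧ alive ω w ∧ loc x w ∈ A} ⊆
          ⋃ a : W X n, {ω | alive ω (toL n a) ∧ loc x (toL n a) ∈ A} := by
        rintro ω ⟨w, hw, ha, hp⟩
        subst hw
        obtain ⟨a, haw⟩ := exists_toL w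
        rw [Set.mem_iUnion]
        refine ⟨a, ?_⟩
        rw [haw]
        exact ⟨ha, hp⟩
      calc law μ x {ω | ∃ w : List (X × ℕ), w.length = n ∧ alive ω w ∧ loc x w ∈ A}
          ≤ law μ x (⋃ a : W X n, {ω | alive ω (toL n a) ∧ loc x (toL n a) ∈ A}) :=
            measure_mono hsub
        _ ≤ ∑' a : W X n, law μ x {ω | alive ω (toL n a) ∧ loc x (toL n a) ∈ A} :=
            measure_iUnion_le _
        _ ≤ ∑' a : W X n, c⁻¹ * (law μ x {ω | alive ω (toL n a)} * h (loc x (toL n a))) := by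
            refine ENNReal.tsum_le_tsum fun a => ?_
            by_cases hl : loc x (toL n a) ∈ A
            · have h1 : 1 ≤ c⁻¹ * h (loc x (toL n a)) := by
                rw [← ENNReal.inv_mul_cancel hc hctop]
                gcongr
                exact hA _ hl
              calc law μ x {ω | alive ω (toL n a) ∧ loc x (toL n a) ∈ A}
                  ≤ law μ x {ω | alive ω (toL n a)} * 1 := by
                    rw [mul_one]; exact measure_mono fun ω hω => hω.1
                _ ≤ law μ x {ω | alive ω (toL n a)} * (c⁻¹ * h (loc x (toL n a))) := by gcongr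
                _ = _ := by ring
            · simp [hl]
        _ = c⁻¹ * h x * lam ^ n := by
            rw [ENNReal.tsum_mul_left, moment μ h lam hm x n]; ring
    refine ne_top_of_le_ne_top ?_ (ENNReal.tsum_le_tsum hn)
    rw [ENNReal.tsum_mul_left, ENNReal.tsum_geometric]
    refine ENNReal.mul_ne_top (ENNReal.mul_ne_top (ENNReal.inv_ne_top.2 hc) hx) ?_
    rw [ENNReal.inv_ne_top]
    exact (tsub_pos_of_lt hlam).ne'
  have hae : ∀ᵐ ω ∂(law μ x), ∀ᶠ n in atTop, ¬ ∃ w : List (X × ℕ), w.length = n ∧ alive ω w ∧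
      loc x w ∈ A := by
    rw [ae_iff]
    convert key using 2
    ext ω
    simp [Filter.Frequently]
  unfold q
  rw [measure_congr (eventuallyEq_univ.2 hae), measure_univ]

end general

/-! ### The example on `ℤ` -/

/-- offspring vectors: `j < 2`: one child at `x + 1` and one at `x - 1`; otherwise two
children at `x + 1` -/
def off (x : ℤ) (j : Fin 21) : ℤ →₀ ℕ :=
  if j.val < 2 then Finsupp.single (x + 1) 1 + Finsupp.single (x - 1) 1
  else Finsupp.single (x + 1) 2

/-- the branching random walk: with probability `2/21` one child at `x + 1` and one at `x - 1`,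
with probability `19/21` two children at `x + 1` -/
def mu (x : ℤ) : PMF (ℤ →₀ ℕ) := (PMF.uniformOfFintype (Fin 21)).map (off x)

theorem mu_sum (x : ℤ) (F : (ℤ →₀ ℕ) → ENNReal) :
    ∑' f, F f * mu x f = (2 * F (Finsupp.single (x + 1) 1 + Finsupp.single (x - 1) 1) +
      19 * F (Finsupp.single (x + 1) 2)) * (21 : ENNReal)⁻¹ := by
  unfold mu
  rw [Q209.Prod.tsum_unif_map (off x) F, Fintype.card_fin]
  congr 1
  have h : ∀ j : Fin 21, F (off x j) = if j.val < 2 then
      F (Finsupp.single (x + 1) 1 + Finsupp.single (x - 1) 1) else F (Finsupp.single (x + 1) 2) := by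
    intro j
    unfold off
    split_ifs <;> rfl
  simp only [h]
  rw [Finset.sum_ite, Finset.sum_const, Finset.sum_const]
  have h1 : (Finset.univ.filter fun j : Fin 21 => j.val < 2).card = 2 := by decide
  have h2 : (Finset.univ.filter fun j : Fin 21 => ¬ j.val < 2).card = 19 := by decide
  rw [h1, h2, nsmul_eq_mul, nsmul_eq_mul]
  norm_num

theorem G_eq (z : ℤ → ENNReal) (x : ℤ) :
    G mu z x = (2 * (z (x + 1) * z (x - 1)) + 19 * z (x + 1) ^ 2) * (21 : ENNReal)⁻¹ := by
  unfold G
  rw [mu_sum x fun f => f.prod fun y n => z y ^ n]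
  have hs : ∀ (a : ℤ) (k : ℕ), (Finsupp.single a k).prod (fun y n => z y ^ n) = z a ^ k :=
    fun a k => Finsupp.prod_single_index (pow_zero _)
  have h1 : (Finsupp.single (x + 1) 1 + Finsupp.single (x - 1) 1 : ℤ →₀ ℕ).prod
      (fun y n => z y ^ n) = (Finsupp.single (x + 1) 1).prod (fun y n => z y ^ n) *
        (Finsupp.single (x - 1) 1).prod (fun y n => z y ^ n) :=
    Finsupp.prod_add_index' (fun _ => pow_zero _) (fun _ _ _ => pow_add _ _ _)
  rw [h1, hs, hs, hs, pow_one, pow_one]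

theorem m_sum (h : ℤ → ENNReal) (x : ℤ) :
    ∑' y, m mu x y * h y = (40 * h (x + 1) + 2 * h (x - 1)) * (21 : ENNReal)⁻¹ := by
  have h1 : ∑' y, m mu x y * h y = ∑' f, (∑' y, (f y : ENNReal) * h y) * mu x f := by
    unfold m
    simp only [← ENNReal.tsum_mul_right]
    rw [ENNReal.tsum_comm]
    refine tsum_congr fun f => tsum_congr fun y => ?_
    ring
  have hs : ∀ (a : ℤ) (n : ℕ), ∑' y, ((Finsupp.single a n y : ℕ) : ENNReal) * h y = n * h a := by
    intro a n
    rw [tsum_eq_single a]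
    · rw [Finsupp.single_eq_same]
    · intro y hy
      rw [Finsupp.single_eq_of_ne hy]
      simp
  rw [h1, mu_sum x fun f => ∑' y, (f y : ENNReal) * h y]
  congr 1
  rw [hs]
  have h2 : ∑' y, (((Finsupp.single (x + 1) 1 + Finsupp.single (x - 1) 1 : ℤ →₀ ℕ) y : ℕ) :
      ENNReal) * h y = h (x + 1) + h (x - 1) := by
    simp only [Finsupp.add_apply, Nat.cast_add, add_mul]
    rw [ENNReal.tsum_add, hs, hs]
    simp
  rw [h2]
  push_cast
  ring

/-- the weight function `(1/4)^y` -/
def hw (y : ℤ) : ENNReal := ENNReal.ofReal ((1 / 4 : ℝ) ^ y)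

theorem hw_eq (x : ℤ) : ∑' y, m mu x y * hw y = ENNReal.ofReal (6 / 7) * hw x := by
  rw [m_sum]
  unfold hw
  have e1 : (40 : ENNReal) = ENNReal.ofReal 40 := by simp
  have e2 : (2 : ENNReal) = ENNReal.ofReal 2 := by simp
  have e3 : (21 : ENNReal)⁻¹ = ENNReal.ofReal (1 / 21) := by
    rw [ENNReal.ofReal_div_of_pos (by norm_num)]; simp
  rw [e1, e2, e3, ← ENNReal.ofReal_mul (by norm_num), ← ENNReal.ofReal_mul (by norm_num),
    ← ENNReal.ofReal_add (by positivity) (by positivity), ← ENNReal.ofReal_mul (by positivity),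
    ← ENNReal.ofReal_mul (by norm_num)]
  congr 1
  rw [zpow_add₀ (by norm_num), zpow_sub₀ (by norm_num)]
  norm_num
  ring

theorem q_bdd (A : Set ℤ) (a : ℤ) (hA : ∀ y ∈ A, y ≤ a) (x : ℤ) : q mu A x = 1 := by
  refine q_one mu hw (ENNReal.ofReal (6 / 7)) hw_eq ?_ x ENNReal.ofReal_ne_top A (hw a) ?_
    ENNReal.ofReal_ne_top ?_
  · rw [← ENNReal.ofReal_one]
    exact (ENNReal.ofReal_lt_ofReal_iff (by norm_num)).2 (by norm_num)
  · unfold hw
    rw [Ne, ENNReal.ofReal_eq_zero, not_le]
    positivity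
  · intro y hy
    unfold hw
    apply ENNReal.ofReal_le_ofReal
    exact zpow_le_zpow_right_of_le_one₀ (by norm_num) (by norm_num) (hA y hy)

/-- the ancestral line of first children at the next site -/
def line (x : ℤ) : ℕ → List (ℤ × ℕ)
  | 0 => []
  | n + 1 => (x + (n + 1 : ℕ), 0) :: line x n

theorem line_len (x : ℤ) (n : ℕ) : (line x n).length = n := by
  induction n with
  | zero => rfl
  | succ n ih => simp [line, ih]

theorem line_loc (x : ℤ) (n : ℕ) : loc x (line x n) = x + n := by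
  cases n with
  | zero => simp [line, loc]
  | succ n => rfl

theorem ae_up (x : ℤ) : ∀ᵐ ω ∂(law mu x), ∀ w, 0 < ω w (loc x w + 1) := by
  rw [ae_all_iff]
  intro w
  have h1 := measurePreserving_eval_infinitePi
    (fun w : List (ℤ × ℕ) => (mu (loc x w)).toMeasure) w
  have h3 : ∀ᵐ f ∂(mu (loc x w)).toMeasure, 0 < f (loc x w + 1) := by
    rw [ae_iff, PMF.toMeasure_apply_eq_zero_iff _ (MeasurableSet.of_discrete), Set.disjoint_left]
    intro f hf hf'
    unfold mu at hf
    rw [PMF.mem_support_map_iff] at hf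
    obtain ⟨j, _, hj⟩ := hf
    apply hf'
    rw [← hj]
    unfold off
    split_ifs <;> simp
  exact h1.quasiMeasurePreserving.ae h3

theorem q_unbdd (A : Set ℤ) (hA : ∀ a, ∃ y ∈ A, a < y) (x : ℤ) : q mu A x = 0 := by
  unfold q
  have h : ∀ᵐ ω ∂(law mu x), ¬ ∀ᶠ n in atTop, ¬ ∃ w : List (ℤ × ℕ), w.length = n ∧
      alive ω w ∧ loc x w ∈ A := by
    filter_upwards [ae_up x] with ω hω hev
    obtain ⟨N, hN⟩ := eventually_atTop.1 hev
    obtain ⟨y, hy, hya⟩ := hA (x + N)
    have hal : ∀ n, alive ω (line x n) := by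
      intro n
      induction n with
      | zero => trivial
      | succ n ih =>
        refine ⟨ih, ?_⟩
        have := hω (line x n)
        rw [line_loc] at this
        change 0 < ω (line x n) (x + (n + 1 : ℕ))
        have e : x + ((n + 1 : ℕ) : ℤ) = x + n + 1 := by push_cast; ring
        rw [e]
        exact this
    refine hN (y - x).toNat (by omega) ⟨line x (y - x).toNat, line_len _ _, hal _, ?_⟩
    rw [line_loc, Int.toNat_of_nonneg (by omega)]
    simpa using hy
  rw [ae_iff] at h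
  simp only [not_not] at h
  exact h

theorem EG_eq : EG mu = {fun _ => 0, fun _ => 1} := by
  ext z
  simp only [EG, Set.mem_ofPred_eq, Set.mem_insert_iff, Set.mem_singleton_iff]
  constructor
  · rintro ⟨A, rfl⟩
    by_cases hA : ∀ a, ∃ y ∈ A, a < y
    · left
      funext x
      exact q_unbdd A hA x
    · right
      push Not at hA
      obtain ⟨a, ha⟩ := hA
      funext x
      exact q_bdd A a ha x
  · rintro (rfl | rfl)
    · refine ⟨Set.univ, ?_⟩
      funext x
      exact (q_unbdd Set.univ (fun a => ⟨a + 1, trivial, by omega⟩) x).symm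
    · refine ⟨∅, ?_⟩
      funext x
      exact (q_bdd ∅ 0 (fun y hy => hy.elim) x).symm

/-! ### Uncountably many fixed points -/

/-- the map for `u = 1 - z` -/
def T (u : ℤ → ℝ) (x : ℤ) : ℝ :=
  1 - (2 * ((1 - u (x + 1)) * (1 - u (x - 1))) + 19 * (1 - u (x + 1)) ^ 2) / 21

theorem T_lin (u : ℤ → ℝ) (x : ℤ) : T u x = (40 * u (x + 1) + 2 * u (x - 1)) / 21 -
    (2 * (u (x + 1) * u (x - 1)) + 19 * u (x + 1) ^ 2) / 21 := by
  unfold T; ring

theorem T_mono {u v : ℤ → ℝ} (h : ∀ x, u x ≤ v x) (hv : ∀ x, v x ≤ 1) (x : ℤ) :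
    T u x ≤ T v x := by
  unfold T
  have a1 := h (x + 1)
  have a2 := h (x - 1)
  have b1 := hv (x + 1)
  have b2 := hv (x - 1)
  have h1 : (1 - v (x + 1)) * (1 - v (x - 1)) ≤ (1 - u (x + 1)) * (1 - u (x - 1)) :=
    mul_le_mul (by linarith) (by linarith) (by linarith) (by linarith)
  have h2 : (1 - v (x + 1)) ^ 2 ≤ (1 - u (x + 1)) ^ 2 := by
    apply pow_le_pow_left₀ <;> linarith
  linarith

theorem T_le_one {u : ℤ → ℝ} (hu : ∀ x, u x ≤ 1) (x : ℤ) : T u x ≤ 1 := by
  unfold T
  have b1 := hu (x + 1)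
  have b2 := hu (x - 1)
  have : 0 ≤ (1 - u (x + 1)) * (1 - u (x - 1)) := mul_nonneg (by linarith) (by linarith)
  have := sq_nonneg (1 - u (x + 1))
  linarith

/-- supersolution -/
def sup (t : ℝ) (x : ℤ) : ℝ := min 1 (t * (2 / 5) ^ x)

/-- subsolution -/
def sb (t : ℝ) (x : ℤ) : ℝ := max 0 (t * (2 / 5) ^ x - 4 * (1 / 4) ^ x)

theorem sup_nonneg {t : ℝ} (ht : 0 < t) (x : ℤ) : 0 ≤ sup t x :=
  le_min zero_le_one (by positivity)

theorem T_sup {t : ℝ} (ht : 0 < t) (x : ℤ) : T (sup t) x ≤ sup t x := by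
  refine le_min (T_le_one (fun x => min_le_left _ _) x) ?_
  rw [T_lin]
  have h1 : sup t (x + 1) ≤ t * (2 / 5) ^ (x + 1) := min_le_right _ _
  have h2 : sup t (x - 1) ≤ t * (2 / 5) ^ (x - 1) := min_le_right _ _
  have h3 := sup_nonneg ht (x + 1)
  have h4 := sup_nonneg ht (x - 1)
  have h5 : 0 ≤ sup t (x + 1) * sup t (x - 1) := mul_nonneg h3 h4
  have h6 := sq_nonneg (sup t (x + 1))
  rw [zpow_add₀ (by norm_num), zpow_one] at h1
  rw [zpow_sub₀ (by norm_num), zpow_one] at h2
  have hp : (0 : ℝ) < (2 / 5) ^ x := by positivity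
  have h7 : t * ((2 / 5) ^ x / (2 / 5)) = t * (2 / 5) ^ x * (5 / 2) := by ring
  rw [h7] at h2
  nlinarith

theorem sb_le_one {t : ℝ} (ht : 0 < t) (ht1 : t ≤ 1) (x : ℤ) : sb t x ≤ 1 := by
  unfold sb
  refine max_le zero_le_one ?_
  rcases le_total 0 x with hx | hx
  · have h1 : (2 / 5 : ℝ) ^ x ≤ 1 := by
      obtain ⟨n, rfl⟩ := Int.eq_ofNat_of_zero_le hx
      rw [zpow_natCast]
      exact pow_le_one₀ (by norm_num) (by norm_num)
    have h2 : (0 : ℝ) < (1 / 4) ^ x := by positivity
    nlinarith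
  · have h1 : (2 / 5 : ℝ) ^ x ≤ (1 / 4) ^ x := by
      obtain ⟨n, hn⟩ := Int.eq_ofNat_of_zero_le (neg_nonneg.2 hx)
      have : x = -(n : ℤ) := by omega
      rw [this, zpow_neg, zpow_neg, zpow_natCast, zpow_natCast]
      apply inv_anti₀ (by positivity)
      exact pow_le_pow_left₀ (by norm_num) (by norm_num) n
    have h2 : (0 : ℝ) < (2 / 5) ^ x := by positivity
    nlinarith

theorem sb_le_sup {t : ℝ} (ht : 0 < t) (ht1 : t ≤ 1) (x : ℤ) : sb t x ≤ sup t x := by
  refine le_min (sb_le_one ht ht1 x) ?_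
  unfold sb
  refine max_le (by positivity) ?_
  have : (0 : ℝ) < (1 / 4) ^ x := by positivity
  linarith

theorem T_nonneg {u : ℤ → ℝ} (hu0 : ∀ x, 0 ≤ u x) (hu : ∀ x, u x ≤ 1) (x : ℤ) : 0 ≤ T u x := by
  unfold T
  have b1 := hu (x + 1)
  have b2 := hu (x - 1)
  have c1 := hu0 (x + 1)
  have c2 := hu0 (x - 1)
  have h1 : (1 - u (x + 1)) * (1 - u (x - 1)) ≤ 1 := by
    apply mul_le_one₀ <;> linarith
  have h2 : (1 - u (x + 1)) ^ 2 ≤ 1 := by
    apply pow_le_one₀ <;> linarith
  linarith

theorem T_sb {t : ℝ} (ht : 0 < t) (ht1 : t ≤ 1) (x : ℤ) : sb t x ≤ T (sb t) x := by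
  have hsb0 : ∀ x, 0 ≤ sb t x := fun x => le_max_left _ _
  unfold sb
  refine max_le (T_nonneg hsb0 (sb_le_one ht ht1) x) ?_
  by_cases hx : x ≤ 0
  · -- the expression is nonpositive
    have h1 : (2 / 5 : ℝ) ^ x ≤ (1 / 4) ^ x := by
      obtain ⟨n, hn⟩ := Int.eq_ofNat_of_zero_le (neg_nonneg.2 hx)
      have : x = -(n : ℤ) := by omega
      rw [this, zpow_neg, zpow_neg, zpow_natCast, zpow_natCast]
      apply inv_anti₀ (by positivity)
      exact pow_le_pow_left₀ (by norm_num) (by norm_num) n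
    have h2 : (0 : ℝ) < (2 / 5) ^ x := by positivity
    have h3 := T_nonneg hsb0 (sb_le_one ht ht1) x
    unfold sb at h3
    nlinarith
  · push Not at hx
    change _ ≤ T (sb t) x
    rw [T_lin]
    have a1 : t * (2 / 5) ^ (x + 1) - 4 * (1 / 4) ^ (x + 1) ≤ sb t (x + 1) := le_max_right _ _
    have a2 : t * (2 / 5) ^ (x - 1) - 4 * (1 / 4) ^ (x - 1) ≤ sb t (x - 1) := le_max_right _ _
    have b1 : sb t (x + 1) ≤ t * (2 / 5) ^ (x + 1) :=
      (sb_le_sup ht ht1 _).trans (min_le_right _ _)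
    have b2 : sb t (x - 1) ≤ t * (2 / 5) ^ (x - 1) :=
      (sb_le_sup ht ht1 _).trans (min_le_right _ _)
    have c1 := hsb0 (x + 1)
    have c2 := hsb0 (x - 1)
    rw [zpow_add₀ (by norm_num), zpow_one, zpow_add₀ (by norm_num), zpow_one] at a1
    rw [zpow_sub₀ (by norm_num), zpow_one, zpow_sub₀ (by norm_num), zpow_one] at a2
    rw [zpow_add₀ (by norm_num), zpow_one] at b1
    rw [zpow_sub₀ (by norm_num), zpow_one] at b2
    set p : ℝ := (2 / 5) ^ x with hp
    set r : ℝ := (1 / 4) ^ x with hr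
    have hp0 : 0 < p := by rw [hp]; positivity
    have hr0 : 0 < r := by rw [hr]; positivity
    have hpr : p ^ 2 ≤ r := by
      obtain ⟨n, rfl⟩ := Int.eq_ofNat_of_zero_le hx.le
      rw [hp, hr, zpow_natCast, zpow_natCast, ← pow_mul, mul_comm, pow_mul]
      exact pow_le_pow_left₀ (by norm_num) (by norm_num) n
    have q1 : sb t (x + 1) ^ 2 ≤ (t * (p * (2 / 5))) ^ 2 := pow_le_pow_left₀ c1 b1 2
    have q2 : sb t (x + 1) * sb t (x - 1) ≤ (t * (p * (2 / 5))) * (t * (p / (2 / 5))) :=
      mul_le_mul b1 b2 c2 (by positivity)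
    have q3 : (t * (p * (2 / 5))) ^ 2 = 4 / 25 * (t ^ 2 * p ^ 2) := by ring
    have q4 : (t * (p * (2 / 5))) * (t * (p / (2 / 5))) = t ^ 2 * p ^ 2 := by
      field_simp
    have q5 : t ^ 2 * p ^ 2 ≤ r := by
      have : t ^ 2 ≤ 1 := by nlinarith
      nlinarith [sq_nonneg p]
    have e2 : t * (p / (2 / 5)) - 4 * (r / (1 / 4)) = t * p * (5 / 2) - 16 * r := by ring
    rw [e2] at a2
    rw [q3] at q1
    rw [q4] at q2
    linarith

/-- decreasing iterates -/
def U (t : ℝ) (n : ℕ) : ℤ → ℝ := T^[n] (sup t)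

theorem U_succ (t : ℝ) (n : ℕ) : U t (n + 1) = T (U t n) := Function.iterate_succ_apply' T n (sup t)

theorem U_bounds {t : ℝ} (ht : 0 < t) (ht1 : t ≤ 1) (n : ℕ) :
    (∀ x, sb t x ≤ U t n x) ∧ (∀ x, U t n x ≤ sup t x) ∧ (∀ x, U t (n + 1) x ≤ U t n x) := by
  have hs1 : ∀ x, sup t x ≤ 1 := fun x => min_le_left _ _
  induction n with
  | zero => exact ⟨sb_le_sup ht ht1, fun x => le_rfl, fun x => T_sup ht x⟩
  | succ n ih =>
    obtain ⟨h1, h2, h3⟩ := ih
    have hU1 : ∀ x, U t n x ≤ 1 := fun x => (h2 x).trans (hs1 x)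
    refine ⟨fun x => ?_, fun x => (h3 x).trans (h2 x), fun x => ?_⟩
    · rw [U_succ]
      exact (T_sb ht ht1 x).trans (T_mono h1 hU1 x)
    · rw [U_succ, U_succ]
      have := T_mono (u := T (U t n)) (v := U t n) (fun x => by rw [← U_succ]; exact h3 x) hU1 x
      exact this

/-- the limit -/
def L (t : ℝ) (x : ℤ) : ℝ := ⨅ n, U t n x

theorem L_tendsto {t : ℝ} (ht : 0 < t) (ht1 : t ≤ 1) (x : ℤ) :
    Tendsto (fun n => U t n x) atTop (𝓝 (L t x)) :=
  tendsto_atTop_ciInf (antitone_nat_of_succ_le fun n => (U_bounds ht ht1 n).2.2 x)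
    ⟨sb t x, by rintro _ ⟨n, rfl⟩; exact (U_bounds ht ht1 n).1 x⟩

theorem L_ge {t : ℝ} (ht : 0 < t) (ht1 : t ≤ 1) (x : ℤ) : sb t x ≤ L t x :=
  le_ciInf fun n => (U_bounds ht ht1 n).1 x

theorem L_le {t : ℝ} (ht : 0 < t) (ht1 : t ≤ 1) (x : ℤ) : L t x ≤ sup t x :=
  ciInf_le ⟨sb t x, by rintro _ ⟨n, rfl⟩; exact (U_bounds ht ht1 n).1 x⟩ 0

theorem L_fixed {t : ℝ} (ht : 0 < t) (ht1 : t ≤ 1) (x : ℤ) : T (L t) x = L t x := by
  have h1 := L_tendsto ht ht1 (x + 1)
  have h2 := L_tendsto ht ht1 (x - 1)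
  have h3 : Tendsto (fun n => T (U t n) x) atTop (𝓝 (T (L t) x)) := by
    unfold T
    exact tendsto_const_nhds.sub ((((tendsto_const_nhds.sub h1).mul
      (tendsto_const_nhds.sub h2)).const_mul 2).add
      (((tendsto_const_nhds.sub h1).pow 2).const_mul 19) |>.div_const 21)
  have h4 : Tendsto (fun n => U t (n + 1) x) atTop (𝓝 (L t x)) :=
    (L_tendsto ht ht1 x).comp (tendsto_add_atTop_nat 1)
  refine tendsto_nhds_unique h3 ?_
  have h5 : (fun n => T (U t n) x) = fun n => U t (n + 1) x := by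
    funext n; rw [U_succ]
  rw [h5]
  exact h4

/-- the fixed point of `G` -/
def Z (t : ℝ) (x : ℤ) : ENNReal := ENNReal.ofReal (1 - L t x)

theorem L_nonneg {t : ℝ} (ht : 0 < t) (ht1 : t ≤ 1) (x : ℤ) : 0 ≤ L t x :=
  (le_max_left _ _ : (0 : ℝ) ≤ sb t x).trans (L_ge ht ht1 x)

theorem L_le_one {t : ℝ} (ht : 0 < t) (ht1 : t ≤ 1) (x : ℤ) : L t x ≤ 1 :=
  (L_le ht ht1 x).trans (min_le_left _ _)

theorem Z_mem {t : ℝ} (ht : 0 < t) (ht1 : t ≤ 1) : Z t ∈ FG mu := by
  constructor
  · intro x
    unfold Z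
    rw [← ENNReal.ofReal_one]
    exact ENNReal.ofReal_le_ofReal (by linarith [L_nonneg ht ht1 x])
  · funext x
    rw [G_eq]
    unfold Z
    have h1 := L_le_one ht ht1 (x + 1)
    have h2 := L_le_one ht ht1 (x - 1)
    have e1 : (19 : ENNReal) = ENNReal.ofReal 19 := by simp
    have e2 : (2 : ENNReal) = ENNReal.ofReal 2 := by simp
    have e3 : (21 : ENNReal)⁻¹ = ENNReal.ofReal (1 / 21) := by
      rw [ENNReal.ofReal_div_of_pos (by norm_num)]; simp
    rw [e1, e2, e3, ← ENNReal.ofReal_mul (by linarith), ← ENNReal.ofReal_mul (by norm_num),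
      ← ENNReal.ofReal_pow (by linarith), ← ENNReal.ofReal_mul (by norm_num),
      ← ENNReal.ofReal_add (mul_nonneg (by norm_num) (mul_nonneg (by linarith) (by linarith)))
        (by positivity),
      ← ENNReal.ofReal_mul (add_nonneg (mul_nonneg (by norm_num)
        (mul_nonneg (by linarith) (by linarith))) (by positivity))]
    congr 1
    have h3 := L_fixed ht ht1 x
    unfold T at h3
    linarith

/-- far to the right the values are strictly between `0` and `1` -/
theorem L_strict {t : ℝ} (ht : 0 < t) (ht1 : t ≤ 1) : ∃ x, 0 < L t x ∧ L t x < 1 := by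
  have h1 : Tendsto (fun n : ℕ => 4 * (5 / 8 : ℝ) ^ n) atTop (𝓝 (4 * 0)) :=
    (tendsto_pow_atTop_nhds_zero_of_lt_one (by norm_num) (by norm_num)).const_mul 4
  rw [mul_zero] at h1
  obtain ⟨N, hN⟩ := eventually_atTop.1 (h1.eventually (gt_mem_nhds ht))
  have hN' := hN (N + 1) (by omega)
  refine ⟨(N + 1 : ℕ), ?_, ?_⟩
  · refine lt_of_lt_of_le ?_ (L_ge ht ht1 _)
    unfold sb
    refine lt_max_of_lt_right ?_
    rw [zpow_natCast, zpow_natCast]
    have e : (1 / 4 : ℝ) ^ (N + 1) = (5 / 8) ^ (N + 1) * (2 / 5) ^ (N + 1) := by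
      rw [← mul_pow]; norm_num
    rw [e]
    have : (0 : ℝ) < (2 / 5) ^ (N + 1) := by positivity
    nlinarith
  · refine lt_of_le_of_lt ((L_le ht ht1 _).trans (min_le_right _ _)) ?_
    rw [zpow_natCast]
    have h2 : (2 / 5 : ℝ) ^ (N + 1) < 1 := pow_lt_one₀ (by norm_num) (by norm_num) (by omega)
    have : (0 : ℝ) < (2 / 5) ^ (N + 1) := by positivity
    nlinarith

theorem Z_not_EG {t : ℝ} (ht : 0 < t) (ht1 : t ≤ 1) : Z t ∉ EG mu := by
  rw [EG_eq]
  obtain ⟨x, h1, h2⟩ := L_strict ht ht1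
  rintro (h | h)
  · have h3 : Z t x = 0 := congrFun h x
    unfold Z at h3
    rw [ENNReal.ofReal_eq_zero] at h3
    linarith
  · have h3 : Z t x = 1 := congrFun h x
    unfold Z at h3
    have h4 : ENNReal.ofReal (1 - L t x) < 1 := by
      rw [← ENNReal.ofReal_one]
      exact (ENNReal.ofReal_lt_ofReal_iff one_pos).2 (by linarith)
    exact absurd h3 h4.ne

theorem Z_lt {t s : ℝ} (ht : 0 < t) (hts : t < s) (hs1 : s ≤ 1) : Z t ≠ Z s := by
  intro h
  have hL : ∀ x, L t x = L s x := by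
    intro x
    have h1 := congrFun h x
    unfold Z at h1
    have h2 := L_le_one ht (hts.le.trans hs1) x
    have h3 := L_le_one (ht.trans hts) hs1 x
    have h4 := (ENNReal.ofReal_eq_ofReal_iff (by linarith) (by linarith)).1 h1
    linarith
  have h1 : Tendsto (fun n : ℕ => 4 * (5 / 8 : ℝ) ^ n) atTop (𝓝 (4 * 0)) :=
    (tendsto_pow_atTop_nhds_zero_of_lt_one (by norm_num) (by norm_num)).const_mul 4
  rw [mul_zero] at h1
  obtain ⟨N, hN⟩ := eventually_atTop.1 (h1.eventually (gt_mem_nhds (sub_pos.2 hts)))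
  have hN' := hN N le_rfl
  have h2 : sb s N ≤ sup t N :=
    (L_ge (ht.trans hts) hs1 N).trans ((hL N) ▸ L_le ht (hts.le.trans hs1) N)
  have h3 : s * (2 / 5) ^ (N : ℤ) - 4 * (1 / 4) ^ (N : ℤ) ≤ t * (2 / 5) ^ (N : ℤ) :=
    (le_max_right _ _).trans (h2.trans (min_le_right _ _))
  rw [zpow_natCast, zpow_natCast] at h3
  have e : (1 / 4 : ℝ) ^ N = (5 / 8) ^ N * (2 / 5) ^ N := by
    rw [← mul_pow]; norm_num
  rw [e] at h3
  have h4 : (0 : ℝ) < (2 / 5) ^ N := by positivity
  nlinarith

theorem uncountable : ¬ (FG mu \ EG mu).Countable := by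
  intro hc
  have hinj : Set.InjOn Z (Set.Ioc (0 : ℝ) 1) := by
    intro t ht s hs h
    rcases lt_trichotomy t s with hlt | heq | hgt
    · exact absurd h (Z_lt ht.1 hlt hs.2)
    · exact heq
    · exact absurd h.symm (Z_lt hs.1 hgt ht.2)
  have hsub : Z '' Set.Ioc (0 : ℝ) 1 ⊆ FG mu \ EG mu := by
    rintro _ ⟨t, ht, rfl⟩
    exact ⟨Z_mem ht.1 ht.2, Z_not_EG ht.1 ht.2⟩
  have h1 := (hc.mono hsub)
  have h2 := Set.countable_of_injective_of_countable_image hinj h1
  rw [Cardinal.Real.Ioc_countable_iff] at h2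
  linarith

theorem irreducible : Irreducible mu := by
  have hm : ∀ x y, m mu x y = (2 * (((Finsupp.single (x + 1) 1 + Finsupp.single (x - 1) 1 :
      ℤ →₀ ℕ) y : ℕ) : ENNReal) + 19 * ((Finsupp.single (x + 1) 2 y : ℕ) : ENNReal)) *
      (21 : ENNReal)⁻¹ := fun x y => mu_sum x fun f => (f y : ENNReal)
  have up : ∀ x, 0 < m mu x (x + 1) := by
    intro x
    rw [hm]
    simp
  have down : ∀ x, 0 < m mu x (x - 1) := by
    intro x
    rw [hm]
    simp
  have upn : ∀ (n : ℕ) x, Relation.ReflTransGen (fun a b => 0 < m mu a b) x (x + n) := by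
    intro n
    induction n with
    | zero => intro x; simp only [Nat.cast_zero, add_zero]; exact Relation.ReflTransGen.refl
    | succ n ih =>
      intro x
      have := (ih x).tail (up (x + n))
      rwa [add_assoc] at this
  have downn : ∀ (n : ℕ) x, Relation.ReflTransGen (fun a b => 0 < m mu a b) x (x - n) := by
    intro n
    induction n with
    | zero => intro x; simp only [Nat.cast_zero, sub_zero]; exact Relation.ReflTransGen.refl
    | succ n ih =>
      intro x
      have := (ih x).tail (down (x - n))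
      rwa [sub_sub] at this
  intro x y
  rcases le_total x y with h | h
  · have := upn (y - x).toNat x
    rwa [Int.toNat_of_nonneg (by omega), add_sub_cancel] at this
  · have := downn (x - y).toNat x
    rwa [Int.toNat_of_nonneg (by omega), sub_sub_cancel] at this

theorem aut (k : ℤ) : IsAut mu (Equiv.addRight k) := by
  intro x f
  have hmap : ∀ j, (off x j).mapDomain (Equiv.addRight k) = off (x + k) j := by
    intro j
    unfold off
    split_ifs
    · rw [Finsupp.mapDomain_add, Finsupp.mapDomain_single, Finsupp.mapDomain_single]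
      simp only [Equiv.coe_addRight]
      rw [show x + 1 + k = x + k + 1 by ring, show x - 1 + k = x + k - 1 by ring]
    · rw [Finsupp.mapDomain_single]
      simp only [Equiv.coe_addRight]
      rw [show x + 1 + k = x + k + 1 by ring]
  have hinj : Function.Injective (Finsupp.mapDomain (M := ℕ) (Equiv.addRight k)) :=
    Finsupp.mapDomain_injective (Equiv.addRight k).injective
  unfold mu
  rw [PMF.map_apply, PMF.map_apply]
  refine tsum_congr fun j => ?_
  have h1 : (f.mapDomain (Equiv.addRight k) = off ((Equiv.addRight k) x) j) ↔ (f = off x j) := by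
    change (f.mapDomain (Equiv.addRight k) = off (x + k) j) ↔ (f = off x j)
    rw [← hmap j]
    exact hinj.eq_iff
  by_cases hf : f = off x j
  · rw [if_pos (h1.2 hf), if_pos hf]
  · rw [if_neg (fun hh => hf (h1.1 hh)), if_neg hf]

theorem quasi : QuasiTransitive mu := by
  refine ⟨{0}, fun x => ⟨Equiv.addRight (-x), aut (-x), ?_⟩⟩
  simp

/-- The class `𝒞` (irreducible, quasi-transitive, almost sure extinction at every single site)
contains a branching random walk on `ℤ` with `E_G = {0, 1}` finite and `F_G ∖ E_G` uncountable. -/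
theorem result : ∃ μ : ℤ → PMF (ℤ →₀ ℕ), Irreducible μ ∧ QuasiTransitive μ ∧
    (∀ x y, q μ {y} x = 1) ∧ EG μ = {fun _ => 0, fun _ => 1} ∧ ¬ (FG μ \ EG μ).Countable :=
  ⟨mu, irreducible, quasi, fun x y => q_bdd {y} y (fun _ hz => le_of_eq hz) x, EG_eq, uncountable⟩

end

end Pool.Agent.Results.MP_c15531_pr.UncountableFixedPoints
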